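import Pool.Agent.Helper86.Poly.Asm

/-!
# The maximum is attained, strictly increasing in `n`, and vertices of maximisers have diameters
-/

set_option autoImplicit false

namespace Pool.Agent.Results.MP_cd13d2_co.Attained

open MeasureTheory
open Pool.Agent.Helper86.Poly

theorem result (d n : ℕ) (hd : 2 ≤ d) (hn : d + 1 ≤ n) :
    (∃ P : Set (E d), Admissible d n P ∧ (volume P).toReal = V d n) ∧ V d n < V d (n + 1) ∧
    ∀ P : Set (E d), Admissible d n P → (volume P).toReal = V d n →
      ∀ v ∈ P.extremePoints ℝ, ∃ w ∈ P.extremePoints ℝ, dist v w = 1 :=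
  pATT d n hd hn

end Pool.Agent.Results.MP_cd13d2_co.Attained
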