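import Pool.Agent.Helper86.Poly.Lim

/-!
# The order of the isodiametric deficit for `n` vertices, `d` fixed
-/

set_option autoImplicit false

namespace Pool.Agent.Helper89.Old.CdManyVertices

open Pool.Agent.Helper86.Poly

theorem result (d : ℕ) (hd : 2 ≤ d) : ∃ c C : ℝ, 0 < c ∧ 0 < C ∧ ∀ n : ℕ, d + 1 ≤ n →
    (1 - C * (n : ℝ) ^ (-(2 / ((d : ℝ) - 1)))) * β d ≤ V d n ∧
    V d n ≤ (1 - c * (n : ℝ) ^ (-(2 / ((d : ℝ) - 1)))) * β d :=
  many d hd

end Pool.Agent.Helper89.Old.CdManyVertices
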