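import Pool.Agent.Helper86.Poly.Lim2

/-!
# Direct sums of regular simplices are not optimal for `d + k` vertices, `k ≥ 3`
-/

set_option autoImplicit false

namespace Pool.Agent.Helper89.Old.CdPentagonGain

open Filter Topology MeasureTheory Set
open Pool.Agent.Helper86.Poly

theorem result (k : ℕ) (hk : 3 ≤ k) :
    (∀ (d : ℕ) (b : Fin k → ℕ) (p : (Σ i, Fin (b i + 1)) → E d), d = ∑ i, b i →
      (∀ i (α β : Fin (b i + 1)), α ≠ β → dist (p ⟨i, α⟩) (p ⟨i, β⟩) = 1) →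
      (∀ i, ∑ α, p ⟨i, α⟩ = 0) →
      (∀ i j, i ≠ j → ∀ (α : Fin (b i + 1)) (β : Fin (b j + 1)),
        inner ℝ (p ⟨i, α⟩) (p ⟨j, β⟩) = 0) →
      ((d.factorial : ℝ) * (volume (convexHull ℝ (range p))).toReal) ^ 2 * 2 ^ d ≤
        (((d : ℝ) + k) / k) ^ k) ∧
    ∃ d0 : ℕ, ∀ d, d0 ≤ d →
      1.49 * (((d : ℝ) + k) / k) ^ k ≤ ((d.factorial : ℝ) * V d (d + k)) ^ 2 * 2 ^ d :=
  ⟨fun d b p hd h1 h2 h3 => ds_le (by omega) hd h1 h2 h3, pent_gain k hk⟩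

end Pool.Agent.Helper89.Old.CdPentagonGain
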