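import Mathlib
import Pool.Agent.Helper51.RG.Bal
import Pool.Agent.Helper51.RG.TutteStep
import Pool.Agent.Helper51.RG.OddCyc

set_option autoImplicit false

namespace Pool.Agent.Helper89.Old.OddCycleCovers

open Pool.Agent.Helper51.RG

theorem main1 (V E : Type) [Fintype V] [Fintype E] (ends : E → Sym2 V) (r : ℕ)
    (hl : ∀ e, ¬ (ends e).IsDiag)
    (hr : ∀ v : V, {e : E | v ∈ ends e}.ncard = r)
    (hV : Even (Fintype.card V))
    (hc : ¬ ∃ (a b : V) (p : (gr ends).Walk a a) (q : (gr ends).Walk b b),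
        p.IsCycle ∧ q.IsCycle ∧ Odd p.length ∧ Odd q.length ∧
        ∀ x, x ∈ p.support → x ∉ q.support) :
    ∃ c : E → Fin r, ∀ e₁ e₂ : E, e₁ ≠ e₂ →
      (∃ v, v ∈ ends e₁ ∧ v ∈ ends e₂) → c e₁ ≠ c e₂ := by
  classical
  refine noTwoOdd r E ends hl ?_ hV ?_
  · intro v
    rw [← hr v, Set.ncard_eq_toFinset_card']
    congr 1
    ext e
    simp
  · intro a b p q hp hq
    obtain ⟨a', p', h1, h2, h3⟩ := exists_odd_cycle _ p rfl hp
    obtain ⟨b', q', h1', h2', h3'⟩ := exists_odd_cycle _ q rfl hq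
    by_contra hcon
    push Not at hcon
    exact hc ⟨a', b', p', q', h1, h1', h2, h2', fun x hx hx' => hcon x (h3 x hx) (h3' x hx')⟩

theorem main2 (V E : Type) [Fintype V] [Fintype E] (ends : E → Sym2 V) (r : ℕ)
    (hl : ∀ e, ¬ (ends e).IsDiag)
    (hr : ∀ v : V, {e : E | v ∈ ends e}.ncard = r)
    (hcut : ∀ X : Finset V, Odd X.card →
      r ≤ {e : E | ∃ u ∈ X, ∃ w ∉ X, ends e = s(u, w)}.ncard)
    (hc : ∃ u v : V, ∀ (a : V) (p : (gr ends).Walk a a), p.IsCycle → Odd p.length →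
      u ∈ p.support ∨ v ∈ p.support) :
    ∃ c : E → Fin r, ∀ e₁ e₂ : E, e₁ ≠ e₂ →
      (∃ v, v ∈ ends e₁ ∧ v ∈ ends e₂) → c e₁ ≠ c e₂ := by
  classical
  obtain ⟨u, v, hc⟩ : ∃ u v : V, (u ≠ v ∨ ∀ x, x = u) ∧ ∀ (a : V) (p : (gr ends).Walk a a),
      p.IsCycle → Odd p.length → u ∈ p.support ∨ v ∈ p.support := by
    obtain ⟨u, v, h⟩ := hc
    by_cases huv : u = v
    · by_cases hx : ∀ x, x = u
      · exact ⟨u, v, Or.inr hx, h⟩
      · push Not at hx
        obtain ⟨x, hx⟩ := hx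
        refine ⟨u, x, Or.inl (Ne.symm hx), fun a p hp hodd => ?_⟩
        have := h a p hp hodd
        rw [← huv, or_self] at this
        exact Or.inl this
    · exact ⟨u, v, Or.inl huv, h⟩
  obtain ⟨huv, hc⟩ := hc
  rcases huv with huv | hall
  · have hcol : ((gr ends).induce {x | x ≠ u ∧ x ≠ v}).Colorable 2 := by
      rw [SimpleGraph.two_colorable_iff_forall_loop_even]
      intro a w
      by_contra hw
      rw [Nat.not_even_iff_odd] at hw
      obtain ⟨b, q, h1, h2, h3⟩ := exists_odd_cycle _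
        (w.map (SimpleGraph.Embedding.induce {x | x ≠ u ∧ x ≠ v}).toHom) rfl
        (by rw [SimpleGraph.Walk.length_map]; exact hw)
      have h4 : ∀ x ∈ q.support, x ≠ u ∧ x ≠ v := by
        intro x hx
        have h5 := h3 x hx
        rw [SimpleGraph.Walk.support_map, List.mem_map] at h5
        obtain ⟨y, -, rfl⟩ := h5
        exact y.2
      rcases hc b q h1 h2 with h5 | h5
      · exact (h4 u h5).1 rfl
      · exact (h4 v h5).2 rfl
    obtain ⟨χ⟩ := hcol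
    refine oddPair ends hl ?_ ?_ u v huv
      (fun x => ∃ h : x ∈ {x | x ≠ u ∧ x ≠ v}, χ ⟨x, h⟩ = 0) ?_
    · intro v
      rw [← hr v, Set.ncard_eq_toFinset_card']
      congr 1
      ext e
      simp
    · intro X hX
      have h1 := hcut X hX
      rw [Set.ncard_eq_toFinset_card'] at h1
      refine h1.trans (le_of_eq ?_)
      congr 1
      ext e
      simp
    · intro e x y he hxu hxv hyu hyv
      have hx : x ∈ {x | x ≠ u ∧ x ≠ v} := ⟨hxu, hxv⟩
      have hy : y ∈ {x | x ≠ u ∧ x ≠ v} := ⟨hyu, hyv⟩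
      have h1 : (gr ends).Adj x y := (gr_adj ends hl x y).mpr ⟨e, he⟩
      have h2 := χ.valid (v := ⟨x, hx⟩) (w := ⟨y, hy⟩) h1
      have e1 : (∃ h : x ∈ {x | x ≠ u ∧ x ≠ v}, χ ⟨x, h⟩ = 0) ↔ χ ⟨x, hx⟩ = 0 :=
        ⟨fun ⟨_, h⟩ => h, fun h => ⟨_, h⟩⟩
      have e2 : (∃ h : y ∈ {x | x ≠ u ∧ x ≠ v}, χ ⟨y, h⟩ = 0) ↔ χ ⟨y, hy⟩ = 0 :=
        ⟨fun ⟨_, h⟩ => h, fun h => ⟨_, h⟩⟩
      rw [e1, e2]
      have : ∀ i j : Fin 2, i ≠ j → (i = 0 ↔ ¬ j = 0) := by decide
      exact this _ _ h2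
  · have hE : ∀ e : E, False := by
      intro e
      obtain ⟨x, y, hxy⟩ : ∃ x y, ends e = s(x, y) := by
        induction h : ends e with
        | _ x y => exact ⟨x, y, rfl⟩
      apply hl e
      rw [hxy, hall x, hall y]
      exact rfl
    exact ⟨fun e => (hE e).elim, fun e => (hE e).elim⟩

/-- (1) Every loopless `r`-regular multigraph of even order without two vertex-disjoint odd cycles
has a proper edge colouring with `r` colours.  (2) Every `r`-graph in which two vertices `u, v`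
meet all odd cycles has a proper edge colouring with `r` colours. -/
theorem result :
    (∀ (V E : Type) [Fintype V] [Fintype E] (ends : E → Sym2 V) (r : ℕ),
      (∀ e, ¬ (ends e).IsDiag) →
      (∀ v : V, {e : E | v ∈ ends e}.ncard = r) →
      Even (Fintype.card V) →
      (¬ ∃ (a b : V)
          (p : (SimpleGraph.fromRel (fun u w : V => ∃ e, ends e = s(u, w))).Walk a a)
          (q : (SimpleGraph.fromRel (fun u w : V => ∃ e, ends e = s(u, w))).Walk b b),
          p.IsCycle ∧ q.IsCycle ∧ Odd p.length ∧ Odd q.length ∧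
          ∀ x, x ∈ p.support → x ∉ q.support) →
      ∃ c : E → Fin r, ∀ e₁ e₂ : E, e₁ ≠ e₂ →
        (∃ v, v ∈ ends e₁ ∧ v ∈ ends e₂) → c e₁ ≠ c e₂) ∧
    (∀ (V E : Type) [Fintype V] [Fintype E] (ends : E → Sym2 V) (r : ℕ),
      (∀ e, ¬ (ends e).IsDiag) →
      (∀ v : V, {e : E | v ∈ ends e}.ncard = r) →
      (∀ X : Finset V, Odd X.card →
        r ≤ {e : E | ∃ u ∈ X, ∃ w ∉ X, ends e = s(u, w)}.ncard) →
      (∃ u v : V, ∀ (a : V)
          (p : (SimpleGraph.fromRel (fun u w : V => ∃ e, ends e = s(u, w))).Walk a a),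
          p.IsCycle → Odd p.length → u ∈ p.support ∨ v ∈ p.support) →
      ∃ c : E → Fin r, ∀ e₁ e₂ : E, e₁ ≠ e₂ →
        (∃ v, v ∈ ends e₁ ∧ v ∈ ends e₂) → c e₁ ≠ c e₂) :=
  ⟨fun V E _ _ ends r => main1 V E ends r, fun V E _ _ ends r => main2 V E ends r⟩

end Pool.Agent.Helper89.Old.OddCycleCovers
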